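import Pool.Agent.H28.Budget3

set_option autoImplicit false

namespace Pool.Agent.Results.MP_8d021f_pr.SubLog

open Finset Filter Topology Pool.Agent.H28.Budget

lemma s_tend : Tendsto (fun n => Nat.log 256 n) atTop atTop :=
  tendsto_atTop.2 fun b => by
    filter_upwards [eventually_ge_atTop (256 ^ b)] with n hn
    exact Nat.le_log_of_pow_le (by norm_num) hn

lemma big (n : ℕ) (h : 17 ≤ Nat.log 256 n) :
    256 ^ Nat.log 256 n ≤ n ∧ n < 256 ^ (Nat.log 256 n + 1) ∧ 4 * mm (Nat.log 256 n) 1 ≤ n ∧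
      24 * n ≤ n.choose 2 ∧ Nat.log 256 n ^ 2 ≤ 12 * n ∧ Nat.log 256 n < n.choose 2 ∧
      n * n ≤ 4 * (n.choose 2 - Nat.log 256 n) ∧ 100 ≤ n := by
  have hn : n ≠ 0 := by rintro rfl; simp at h
  have h1 := Nat.pow_log_le_self 256 hn
  have h2 := Nat.lt_pow_succ_log_self (by norm_num : 1 < 256) n
  set s := Nat.log 256 n
  have h3 : 4 * s ≤ 16 ^ s := by
    have := Nat.lt_pow_self (n := 4 * s) (by norm_num : 1 < 2)
    rw [pow_mul] at this; exact this.le
  have h4 : 16 ^ s * 16 ^ s ≤ n := by rw [← mul_pow]; exact h1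
  have h5 := mm_le s (by omega)
  have h6 : (4 * s) * (4 * s) ≤ n := (Nat.mul_le_mul h3 h3).trans h4
  have h7 : 4 * mm s 1 ≤ n := by nlinarith [Nat.mul_le_mul_right (16 ^ s) h3]
  have h8 : 100 ≤ n := by nlinarith
  have h9 : 4 * s ≤ n := by nlinarith
  have h10 : n * n ≤ 2 * n.choose 2 + n + 1 := by
    rw [Nat.choose_two_right]
    obtain ⟨m, rfl⟩ := Nat.exists_eq_succ_of_ne_zero hn
    simp only [Nat.succ_eq_add_one, Nat.add_sub_cancel]
    have : (m + 1) * (m + 1) = (m + 1) * m + (m + 1) := by ring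
    omega
  have h11 : 100 * n ≤ n * n := Nat.mul_le_mul_right _ h8
  refine ⟨h1, h2, h7, by omega, by nlinarith, by omega, by omega, h8⟩

open Classical in
lemma lower (n : ℕ) (h : 17 ≤ Nat.log 256 n) :
    ((univ.filter (fun σ : Ord n => ∃ r, Nat.log 256 n ≤
      {w | (proc σ (n / 2 ^ 20)).Reachable r w}.ncard)).card : ℝ)
      ≤ 4 * 256 ^ 3 * (1 / 256) ^ Nat.log 256 n * Fintype.card (Ord n) := by
  obtain ⟨-, h2, -, -, -, h3, h4, h5⟩ := big n h
  have h6 : 100 * n ≤ n * n := Nat.mul_le_mul_right _ h5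
  refine (first_moment _ _ (by omega) h3 (by omega)).trans ?_
  refine mul_le_mul_of_nonneg_right ?_ (ord_pos n).le
  have hn : (0 : ℝ) < n := by exact_mod_cast (by omega : 0 < n)
  have h7 : ((n / 2 ^ 20 : ℕ) : ℝ) / ((n.choose 2 - Nat.log 256 n : ℕ) : ℝ) ≤ 1 / (2 ^ 18 * n) := by
    have a1 : (n : ℝ) * n ≤ 4 * ((n.choose 2 - Nat.log 256 n : ℕ) : ℝ) := by exact_mod_cast h4
    have a2 : ((n / 2 ^ 20 : ℕ) : ℝ) * 2 ^ 20 ≤ n := by exact_mod_cast Nat.div_mul_le_self n _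
    rw [div_le_div_iff₀ (by nlinarith) (by positivity)]
    nlinarith [mul_le_mul_of_nonneg_right a2 hn.le]
  obtain ⟨r, hr⟩ := Nat.exists_eq_add_of_le' (by omega : 1 ≤ Nat.log 256 n)
  rw [hr] at h2 h7 ⊢
  have h8 : (n : ℝ) ≤ 256 ^ (r + 1 + 1) := by exact_mod_cast h2.le
  rw [Nat.add_sub_cancel]
  calc _ ≤ (n : ℝ) ^ (r + 1) * 4 ^ (r + 1) * (1 / (2 ^ 18 * n)) ^ r := by gcongr
    _ = 4 * n * (n * 4 * (1 / (2 ^ 18 * n))) ^ r := by rw [mul_pow, mul_pow]; ring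
    _ = 4 * n * ((1 / 256) * (1 / 256)) ^ r := by congr 2; field_simp; norm_num
    _ ≤ 4 * 256 ^ (r + 1 + 1) * ((1 / 256) * (1 / 256)) ^ r := by gcongr
    _ = 4 * 256 ^ 2 * (256 * (1 / 256)) ^ r * (1 / 256) ^ r := by rw [mul_pow, mul_pow]; ring
    _ = _ := by norm_num; ring

theorem result : ∃ (P : ∀ n, Set (SimpleGraph (Fin n))) (b : ℕ → ℕ)
    (buy : ∀ n, List (E n) → Bool),
    (∀ n G H, G ∈ P n → Nonempty (G ≃g H) → H ∈ P n) ∧
    (∀ n G H, G ∈ P n → G ≤ H → H ∈ P n) ∧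
    (∀ n G, Minimal (· ∈ P n) G → ∀ v, (G.neighborSet v).ncard ≤ 3) ∧
    aas (fun n σ => (n : ℝ) / 2 ^ 20 ≤ hit (P n) σ ∧ hit (P n) σ ≤ 24 * n) ∧
    (∀ n σ, (bought (buy n) σ (24 * n)).ncard ≤ b n) ∧
    aas (fun n σ => grOf σ (bought (buy n) σ (24 * n)) ∈ P n) ∧
    Tendsto (fun n : ℕ => (b n : ℝ) / (24 * n / Real.log n)) atTop (𝓝 0) := by
  classical
  have hex : ∀ n, ∃ buy : List (E n) → Bool,
      (∀ σ, (bought buy σ (24 * n)).ncard ≤ mm (Nat.log 256 n) 1) ∧ (17 ≤ Nat.log 256 n →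
      ((univ.filter (fun σ : Ord n => ¬ grOf σ (bought buy σ (24 * n))
        ∈ PP (Nat.log 256 n) n)).card : ℝ)
        ≤ Real.exp (-(Nat.log 256 n : ℝ) ^ 2) * Fintype.card (Ord n)) := by
    intro n
    by_cases h : 17 ≤ Nat.log 256 n
    · obtain ⟨-, -, h1, h2, h3, -⟩ := big n h
      obtain ⟨buy, a1, a2⟩ := strat _ h h1 h2 h3
      exact ⟨buy, a1, fun _ => a2⟩
    · exact ⟨fun _ => false, fun σ => by simp [bought], fun h' => absurd h' h⟩
  choose buy hb1 hb2 using hex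
  have hev := s_tend.eventually_ge_atTop 17
  have hmono : ∀ s n G H, G ∈ PP s n → G ≤ H → H ∈ PP s n :=
    fun s n G H ⟨K, h1, h2⟩ h => ⟨K, h1.trans h, h2⟩
  have t1 : Tendsto (fun n => Real.exp (-(Nat.log 256 n : ℝ) ^ 2)) atTop (𝓝 0) :=
    Real.tendsto_exp_neg_atTop_nhds_zero.comp ((tendsto_pow_atTop two_ne_zero).comp
      (tendsto_natCast_atTop_atTop.comp s_tend))
  have t2 : Tendsto (fun n => 4 * 256 ^ 3 * (1 / 256 : ℝ) ^ Nat.log 256 n) atTop (𝓝 0) := by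
    have := ((tendsto_pow_atTop_nhds_zero_of_lt_one (r := (1 / 256 : ℝ)) (by norm_num)
      (by norm_num)).comp s_tend).const_mul (4 * 256 ^ 3)
    rwa [mul_zero] at this
  refine ⟨fun n => PP (Nat.log 256 n) n, fun n => mm (Nat.log 256 n) 1, buy, ?_,
    fun n => hmono _ n, ?_, ?_, hb1, ?_, ?_⟩
  · rintro n G H ⟨K, h1, h2, v, h3⟩ ⟨φ⟩
    let ψ : K.comap φ.symm.toEquiv ≃g K := SimpleGraph.Iso.comap φ.symm.toEquiv K
    refine ⟨K.comap φ.symm.toEquiv, fun a b hab => φ.symm.map_adj_iff.1 (h1 hab), fun w => ?_,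
      ψ.symm v, h3.trans ?_⟩
    · rw [Set.ncard_congr' (ψ.mapNeighborSet w)]; exact h2 _
    · exact Set.ncard_le_ncard_of_injOn ψ.symm (fun w hw => hw.map ψ.symm.toHom)
        ψ.symm.injective.injOn (Set.toFinite _)
  · rintro n G ⟨⟨K, h1, h2, h3⟩, h4⟩
    have : G = K := le_antisymm (h4 ⟨K, le_rfl, h2, h3⟩ h1) h1
    rw [this]; exact h2
  · refine aas_of _ _ (by have := t1.add t2; rwa [add_zero] at this) ?_
    filter_upwards [hev] with n hn
    have a1 := hb2 n hn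
    have a2 := lower n hn
    refine le_trans ?_ ((add_le_add a1 a2).trans (le_of_eq (by ring)))
    rw [← Nat.cast_add, Nat.cast_le]
    refine le_trans (card_le_card fun σ hσ => ?_) (card_union_le _ _)
    simp only [mem_filter, mem_univ, true_and] at hσ
    by_contra hc
    simp only [mem_union, mem_filter, mem_univ, true_and, not_or, not_not] at hc
    have hpm : ∀ t t', t ≤ t' → proc σ t ≤ proc σ t' := fun t t' h =>
      SimpleGraph.fromEdgeSet_mono fun _ ⟨i, hi, h'⟩ => ⟨i, lt_of_lt_of_le hi h, h'⟩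
    have b1 : proc σ (24 * n) ∈ PP (Nat.log 256 n) n := hmono _ _ _ _ hc.1
      (SimpleGraph.fromEdgeSet_mono fun _ ⟨i, hi, h'⟩ => ⟨i, hi.1, h'⟩)
    have b2 : proc σ (hit (PP (Nat.log 256 n) n) σ) ∈ PP (Nat.log 256 n) n :=
      Nat.sInf_mem (s := {t | proc σ t ∈ PP (Nat.log 256 n) n}) ⟨_, b1⟩
    refine hσ ⟨?_, Nat.sInf_le b1⟩
    by_contra b3
    have b4 : hit (PP (Nat.log 256 n) n) σ ≤ n / 2 ^ 20 := by
      rw [Nat.le_div_iff_mul_le (by norm_num)]
      rw [not_le, lt_div_iff₀ (by norm_num)] at b3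
      exact_mod_cast b3.le
    obtain ⟨K, c1, -, v, c2⟩ := hmono _ _ _ _ b2 (hpm _ _ b4)
    exact hc.2 ⟨v, c2.trans (Set.ncard_le_ncard (fun w hw => hw.mono c1) (Set.toFinite _))⟩
  · refine aas_of _ _ t1 ?_
    filter_upwards [hev] with n hn
    convert hb2 n hn
  · have t3 := ((tendsto_pow_const_div_const_pow_of_one_lt 2 (r := (16 : ℝ))
      (by norm_num)).comp s_tend).const_mul 512
    rw [mul_zero] at t3
    refine squeeze_zero' ?_ ?_ t3
    · exact Eventually.of_forall fun n =>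
        div_nonneg (by positivity) (div_nonneg (by positivity) (Real.log_natCast_nonneg n))
    filter_upwards [hev] with n hn
    obtain ⟨h1, h2, -, -, -, -, -, h5⟩ := big n hn
    have h6 := mm_le (Nat.log 256 n) (by omega)
    simp only [Function.comp]
    set s := Nat.log 256 n
    have hn0 : (0 : ℝ) < n := by exact_mod_cast (by omega : 0 < n)
    have hs : (17 : ℝ) ≤ s := by exact_mod_cast hn
    have a1 : (16 : ℝ) ^ s * 16 ^ s ≤ n := by rw [← mul_pow]; exact_mod_cast h1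
    have a2 : (mm s 1 : ℝ) ≤ s * 16 ^ s := by exact_mod_cast h6
    have a3 : Real.log n ≤ 512 * s := by
      have b1 : (n : ℝ) ≤ 256 ^ (s + 1) := by exact_mod_cast h2.le
      have b2 := Real.log_le_log hn0 b1
      have b3 := Real.log_le_sub_one_of_pos (by norm_num : (0 : ℝ) < 256)
      rw [Real.log_pow] at b2
      push_cast at b2
      nlinarith
    have a4 := Real.log_natCast_nonneg n
    have a5 : (0 : ℝ) < 16 ^ s := by positivity
    rw [div_div_eq_mul_div, mul_div_assoc', div_le_div_iff₀ (by positivity) a5]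
    calc (mm s 1 : ℝ) * Real.log n * 16 ^ s ≤ (s * 16 ^ s) * (512 * s) * 16 ^ s := by gcongr
      _ = 512 * s ^ 2 * (16 ^ s * 16 ^ s) := by ring
      _ ≤ 512 * s ^ 2 * (24 * n) := mul_le_mul_of_nonneg_left (by linarith) (by positivity)

end Pool.Agent.Results.MP_8d021f_pr.SubLog
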